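import Mathlib
import Pool.Agent.Work.MP_5a7c5b_co.Eight

/-!
MP_5a7c5b_co, Q1 (Grigorchuk): the symmetric colouring number of the free group on two generators
is finite; in fact it is at most 8.

The definitions follow the problem file word by word.
-/

set_option autoImplicit false

universe u v w

namespace Pool.Agent.Results.MP_5a7c5b_co.SymmetricColouring

/-- A subset `A` of a group `G` is symmetric if there is `g` in `G` with
`A = g A⁻¹ g = {g a⁻¹ g : a ∈ A}`. -/
def IsSymmetric {G : Type u} [Group G] (A : Set G) : Prop :=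
  ∃ g : G, A = {x | ∃ a ∈ A, x = g * a⁻¹ * g}

/-- A subset `A` is monochromatic for the colouring `χ : G → C` if `χ` is constant on it. -/
def IsMonochromatic {G : Type u} {C : Type v} (χ : G → C) (A : Set G) : Prop :=
  ∀ a ∈ A, ∀ b ∈ A, χ a = χ b

/-- `G` has no infinite subset that is both monochromatic (for `χ`) and symmetric. -/
def IsAvoiding {G : Type u} [Group G] {C : Type v} (χ : G → C) : Prop :=
  ¬ ∃ A : Set G, A.Infinite ∧ IsMonochromatic χ A ∧ IsSymmetric A

/-- The symmetric colouring number `ν(G)`: the least cardinal `|C|` for which there is a colouring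
`χ : G → C` such that `G` has no infinite subset that is both monochromatic and symmetric. (The
second part of `result` shows that the minimum is attained and that colour sets from other universes
do not give less.) -/
noncomputable def nu (G : Type u) [Group G] : Cardinal.{u} :=
  sInf {κ : Cardinal.{u} | ∃ (C : Type u) (χ : G → C), IsAvoiding χ ∧ Cardinal.mk C = κ}

theorem isAvoiding_id (G : Type u) [Group G] : IsAvoiding (fun x : G => x) := by
  rintro ⟨A, hA, hm, -⟩
  exact hA (Set.Subsingleton.finite fun a ha b hb => hm a ha b hb)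

theorem nu_attained (G : Type u) [Group G] :
    ∃ (C : Type u) (χ : G → C), IsAvoiding χ ∧ Cardinal.mk C = nu G :=
  csInf_mem (s := {κ : Cardinal.{u} | ∃ (C : Type u) (χ : G → C), IsAvoiding χ ∧ Cardinal.mk C = κ})
    ⟨Cardinal.mk G, G, fun x => x, isAvoiding_id G, rfl⟩

theorem nu_le (G : Type u) [Group G] (C : Type w) (χ : G → C) (h : IsAvoiding χ) :
    Cardinal.lift.{w} (nu G) ≤ Cardinal.lift.{u} (Cardinal.mk C) := by
  let χ' : G → Quotient (Setoid.ker χ) := fun x => Quotient.mk _ x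
  have h' : IsAvoiding χ' := by
    rintro ⟨A, hA, hm, hs⟩
    exact h ⟨A, hA, fun a ha b hb => Quotient.exact (hm a ha b hb), hs⟩
  have h1 : nu G ≤ Cardinal.mk (Quotient (Setoid.ker χ)) := csInf_le' ⟨_, χ', h', rfl⟩
  refine (Cardinal.lift_le.2 h1).trans ?_
  have h2 : Function.Injective (Quotient.lift (s := Setoid.ker χ) χ fun a b hab => hab) := by
    intro x y
    refine Quotient.inductionOn₂ x y fun a b hab => ?_
    exact Quotient.sound hab
  exact Cardinal.lift_mk_le_lift_mk_of_injective h2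

theorem avoiding_comp {F : Type v} [Group F] {G : Type u} [Group G] {C : Type w} (χ : F → C)
    (h : IsAvoiding χ) (f : G →* F) (hf : Function.Injective f) : IsAvoiding (fun x => χ (f x)) := by
  rintro ⟨A, hA, hm, g, hg⟩
  refine h ⟨f '' A, hA.image hf.injOn, ?_, f g, ?_⟩
  · rintro _ ⟨a, ha, rfl⟩ _ ⟨b, hb, rfl⟩
    exact hm a ha b hb
  · ext y
    constructor
    · rintro ⟨x, hx, rfl⟩
      rw [hg] at hx
      obtain ⟨a, ha, rfl⟩ := hx
      exact ⟨f a, ⟨a, ha, rfl⟩, by simp⟩
    · rintro ⟨_, ⟨a, ha, rfl⟩, rfl⟩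
      refine ⟨g * a⁻¹ * g, ?_, by simp⟩
      rw [hg]
      exact ⟨a, ha, rfl⟩

theorem exists_avoiding : ∃ χ : FreeGroup (Fin 2) → Fin 8, IsAvoiding χ := by
  obtain ⟨c, hc⟩ := Pool.Agent.Work.MP_5a7c5b_co.main_eight
  refine ⟨c, ?_⟩
  rintro ⟨A, hA, hm, g, hg⟩
  obtain ⟨a₀, ha₀⟩ := hA.nonempty
  refine hc A hA ⟨g, ?_⟩ ⟨c a₀, fun a ha => hm a ha a₀ ha₀⟩
  rw [hg]
  ext x
  constructor
  · rintro ⟨a, ha, rfl⟩
    rw [← hg]
    exact ⟨a, ha, rfl⟩
  · intro hx
    rw [← hg] at hx
    obtain ⟨a, ha, rfl⟩ := hx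
    exact ⟨a, ha, rfl⟩

theorem exists_avoiding_of_hom {F : Type v} [Group F] (b : FreeGroupBasis (Fin 2) F)
    (G : Type u) [Group G] (f : G →* F) (hf : Function.Injective f) :
    ∃ χ : G → Fin 8, IsAvoiding χ := by
  obtain ⟨χ, hχ⟩ := exists_avoiding
  exact ⟨_, avoiding_comp _ (avoiding_comp χ hχ b.repr.toMonoidHom b.repr.injective) f hf⟩

theorem nu_le_eight {F : Type v} [Group F] (b : FreeGroupBasis (Fin 2) F)
    (G : Type u) [Group G] (f : G →* F) (hf : Function.Injective f) : nu G ≤ 8 := by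
  obtain ⟨χ, hχ⟩ := exists_avoiding_of_hom b G f hf
  have h := nu_le G (Fin 8) χ hχ
  simpa using h

/-- Let `F` be a free group on two generators (a group with a basis of two elements; for instance
`FreeGroup (Fin 2)`), in any universe. Then

(1) `ν(F)` is finite: it is a natural number, at most `8`;

(2) there are a natural number `r ≤ 8` and a colouring `χ : F → {1, ..., r}` such that no infinite
monochromatic subset `A` satisfies `A = g A⁻¹ g` for any `g`;

(3) `ν(G) ≤ 8` for every group `G` that embeds in `F`.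

Moreover `ν(G)` is well defined for every group `G`: the minimum in its definition is attained, and
it is a lower bound for the cardinals of all colour sets, in any universe, with a colouring as in
the definition. -/
theorem result :
    (∀ (F : Type v) [Group F], FreeGroupBasis (Fin 2) F →
      (∃ r : ℕ, r ≤ 8 ∧ nu F = r) ∧
      (∃ r : ℕ, r ≤ 8 ∧ ∃ χ : F → ℕ, (∀ x, 1 ≤ χ x ∧ χ x ≤ r) ∧
        ¬ ∃ A : Set F, A.Infinite ∧ IsMonochromatic χ A ∧
          ∃ g : F, A = {x | ∃ a ∈ A, x = g * a⁻¹ * g}) ∧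
      ∀ (G : Type u) [Group G] (f : G →* F), Function.Injective f → nu G ≤ 8) ∧
    ∀ (G : Type u) [Group G],
      (∃ (C : Type u) (χ : G → C), IsAvoiding χ ∧ Cardinal.mk C = nu G) ∧
      ∀ (C : Type w) (χ : G → C), IsAvoiding χ →
        Cardinal.lift.{w} (nu G) ≤ Cardinal.lift.{u} (Cardinal.mk C) := by
  refine ⟨fun F _ b => ⟨?_, ?_, fun G _ f hf => nu_le_eight b G f hf⟩,
    fun G _ => ⟨nu_attained G, nu_le G⟩⟩
  · have h : nu F ≤ 8 := nu_le_eight b F (MonoidHom.id F) Function.injective_id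
    have h8 : nu F ≤ ((8 : ℕ) : Cardinal.{v}) := by simpa using h
    obtain ⟨r, hr⟩ := Cardinal.lt_aleph0.1 (h8.trans_lt Cardinal.natCast_lt_aleph0)
    refine ⟨r, ?_, hr⟩
    rw [hr] at h8
    exact_mod_cast h8
  · obtain ⟨χ, hχ⟩ := exists_avoiding_of_hom b F (MonoidHom.id F) Function.injective_id
    refine ⟨8, le_rfl, fun x => (χ x : ℕ) + 1, fun x => ⟨Nat.succ_pos _, (χ x).isLt⟩, ?_⟩
    rintro ⟨A, hA, hm, hs⟩
    refine hχ ⟨A, hA, fun a ha b hb => ?_, hs⟩
    have h := hm a ha b hb
    exact Fin.ext (Nat.succ.inj h)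

end Pool.Agent.Results.MP_5a7c5b_co.SymmetricColouring
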